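import Pool.Agent.helper73.NH.Spec

/-!
Project nh (MP_a2a22c_al), row NVH: nilpotent subgroups.
-/

set_option autoImplicit false

namespace Pool.Agent.NH

open Matrix Module Pool.Agent.PR Pool.Agent.SHL

theorem NVH_mul {n : ℕ} (a b : SLZ n) : stdM ℚ (a * b) = stdM ℚ a * stdM ℚ b := by
  rw [stdM, stdM, stdM, Matrix.SpecialLinearGroup.coe_mul, Matrix.map_mul]

theorem NVH_one {n : ℕ} : stdM ℚ (1 : SLZ n) = 1 := by
  rw [stdM, Matrix.SpecialLinearGroup.coe_one, Matrix.map_one _ (map_zero _) (map_one _)]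

theorem NVH_inj {n : ℕ} {a b : SLZ n} (h : stdM ℚ a = stdM ℚ b) : a = b := by
  apply Subtype.ext
  ext i j
  have h1 := congrFun (congrFun h i) j
  simpa [stdM] using h1

/-- the action on column vectors -/
noncomputable def NVH_rho {n : ℕ} (P : Subgroup (SLZ n)) : P →* Module.End ℚ (Fin n → ℚ) where
  toFun g := Matrix.toLinAlgEquiv' (stdM ℚ (g : SLZ n))
  map_one' := by rw [Subgroup.coe_one, NVH_one, map_one]
  map_mul' a b := by rw [Subgroup.coe_mul, NVH_mul, map_mul]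

theorem NVH_rho_apply {n : ℕ} (P : Subgroup (SLZ n)) (g : P) (v : Fin n → ℚ) :
    NVH_rho P g v = stdM ℚ (g : SLZ n) *ᵥ v := rfl

theorem NVH_int {n : ℕ} (P : Subgroup (SLZ n)) (g : P) : IsIntegral ℤ (NVH_rho P g) := by
  have h1 : IsIntegral ℤ ((g : SLZ n) : Matrix (Fin n) (Fin n) ℤ) := Matrix.isIntegral _
  have h2 : IsIntegral ℤ (stdM ℚ (g : SLZ n)) :=
    map_isIntegral_int (Int.castRingHom ℚ).mapMatrix h1
  exact map_isIntegral_int (Matrix.toLinAlgEquiv' : Matrix (Fin n) (Fin n) ℚ ≃ₐ[ℚ] _) h2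

theorem NVH_rho_inj {n : ℕ} (P : Subgroup (SLZ n)) : Function.Injective (NVH_rho P) := by
  intro a b h
  exact Subtype.ext (NVH_inj (Matrix.toLinAlgEquiv'.injective h))

theorem NVH_nil {n : ℕ} (P : Subgroup (SLZ n)) (g : P) (h : IsNilpotent (NVH_rho P g - 1)) :
    IsNilpotent (stdM ℚ (g : SLZ n) - 1) := by
  obtain ⟨k, hk⟩ := h
  refine ⟨k, Matrix.toLinAlgEquiv'.injective ?_⟩
  rw [map_pow, map_sub, map_one, map_zero]
  exact hk

theorem NVH (hHA : HA_stmt) (hNPB : NPB_stmt) (hUBD : UBD_stmt) : NVH_stmt := by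
  intro n hn H P hH hPH hP N hN hi
  by_contra hfin
  obtain ⟨_, _, _, _, _, h6⟩ := hHA (SLZ n)
  have h1 : Hi N (⊤ : Subgroup P) := by
    have h2 := h6 P P.subtype P.subtype_injective N P (by rw [Subgroup.range_subtype]) hi
    have h3 : P.comap P.subtype = ⊤ := Subgroup.eq_top_iff' _ |>.2 fun x => x.2
    rwa [h3] at h2
  have hne : Nonempty (Fin n) := ⟨⟨0, by omega⟩⟩
  obtain ⟨U, M, a, b, hU1, hU2, hU3, hab, hb⟩ := hNPB (Fin n → ℚ) P hP (NVH_rho P) (NVH_rho_inj P)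
    (NVH_int P) N h1
  obtain ⟨h4, _⟩ := hUBD n hn H P hH hPH hfin U a hU3 (fun u hu => NVH_nil P u (hU1 u hu))
  have h5 := h4 M hU2
  rw [finrank_fin_fun] at hb
  omega

end Pool.Agent.NH
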